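import Pool.Agent.Helper78_MTG.Inv
import Pool.Agent.MT100GO.Stmts

/-! MT100-GEN, even weight, module HDF, part (N): a rational tensor which vanishes on all conjugates
of the high part of the Hodge structure is invariant under the special orthogonal group. -/

set_option autoImplicit false
set_option linter.unusedSectionVars false

namespace Pool.Agent.MT100GO.H65

open Matrix Pool.Agent.MT100 Pool.Agent.MT100G Pool.Agent.Helper78_MT Pool.Agent.MT100.H78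
  Pool.Agent.Helper46_MT Pool.Agent.MT100G.H78

section
variable {n : Type} [Fintype n] [DecidableEq n]

theorem saut_mul {E : Matrix n n ℚ} {a b : Matrix n n ℂ} (ha : a ∈ SAut E) (hb : b ∈ SAut E) :
    a * b ∈ SAut E :=
  ⟨aut_mul ha.1 hb.1, by rw [det_mul, ha.2, hb.2, one_mul]⟩

theorem one_saut (E : Matrix n n ℚ) : (1 : Matrix n n ℂ) ∈ SAut E := ⟨one_aut E, det_one⟩

theorem saut_inv {E : Matrix n n ℚ} (hE : IsUnit (E.map (algebraMap ℚ ℂ)).det) {a : Matrix n n ℂ}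
    (ha : a ∈ SAut E) : a⁻¹ ∈ SAut E := by
  refine ⟨aut_inv_mem hE ha.1, ?_⟩
  have h2 : a * a⁻¹ = 1 := mul_nonsing_inv a (by rw [ha.2]; exact isUnit_one)
  have h3 := congrArg det h2
  rwa [det_mul, ha.2, one_mul, det_one] at h3

/-- **(N)** -/
theorem inv_of_hodgeO (hN : NrmStmt) {w : ℕ} {E : Matrix n n ℚ} {V : ℕ → Submodule ℂ (n → ℂ)}
    (hV : PolHodge w E V) (hw : Even w) (h5 : 5 ≤ Fintype.card n) (hlev : ∃ p, w < 2 * p ∧ V p ≠ ⊥)
    (t : (Fin 4 → n) → ℚ)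
    (h : ∀ G ∈ SAut E, ∀ (p : Fin 4 → ℕ) (x : Fin 4 → n → ℂ), (∀ j, x j ∈ V (p j)) →
      2 * w < ∑ j, p j → ∑ β, (t β : ℂ) * ∏ j, (G *ᵥ x j) (β j) = 0) :
    ∀ G ∈ SAut E, ∀ x : Fin 4 → n → ℂ,
      ∑ β, (t β : ℂ) * ∏ j, (G *ᵥ x j) (β j) = ∑ β, (t β : ℂ) * ∏ j, x j (β j) := by
  obtain ⟨π, hπ, hp1, hp2, hp3⟩ := proj_of hV
  have hEd := det_ne hV
  have hEs : Eᵀ = E := by
    have h3 := hV.symm
    rwa [Even.neg_one_pow hw, one_smul] at h3
  have hEu : IsUnit (E.map (algebraMap ℚ ℂ)).det := det_map hEd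
  have h' : ∀ G ∈ SAut E, ∀ (p : Fin 4 → ℕ) (x : Fin 4 → n → ℂ), (∀ j, x j ∈ V (p j)) →
      2 * w < ∑ j, p j → tau t (fun j => G *ᵥ x j) = 0 := h
  -- both halves
  have H1 : ∀ G ∈ SAut E, ∀ (p : Fin 4 → ℕ) (x : Fin 4 → n → ℂ), (∀ j, p j ≤ w) →
      (∀ j, x j ∈ V (p j)) → ∑ j, p j ≠ 2 * w → tau t (fun j => G *ᵥ x j) = 0 := by
    intro G hG p x hpw hx hne
    rcases lt_or_gt_of_ne hne with hlt | hgt
    · have hG' : G.map (starRingEnd ℂ) ∈ SAut E := by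
        refine ⟨?_, ?_⟩
        · have h3 : Gᵀ * E.map (algebraMap ℚ ℂ) * G = E.map (algebraMap ℚ ℂ) := hG.1
          have h4 := congrArg (fun M : Matrix n n ℂ => M.map (starRingEnd ℂ)) h3
          simp only [Matrix.map_mul, rat_conj] at h4
          exact h4
        · have h3 := RingHom.map_det (starRingEnd ℂ) G
          rw [hG.2, map_one, RingHom.mapMatrix_apply] at h3
          exact h3.symm
      have h3 := h' _ hG' (fun j => w - p j) (fun j => star (x j)) (fun j => hV.conj _ (hpw j) _ (hx j))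
        (by
          simp only [Fin.sum_univ_four] at hlt ⊢
          have a0 := hpw 0
          have a1 := hpw 1
          have a2 := hpw 2
          have a3 := hpw 3
          omega)
      have h4 : (fun j => G.map (starRingEnd ℂ) *ᵥ star (x j)) = fun j => star (G *ᵥ x j) := by
        funext j
        exact (conj_mulVec G (x j)).symm
      rw [h4, ← tau_conj] at h3
      have h5 := congrArg (starRingEnd ℂ) h3
      rw [Complex.conj_conj, map_zero] at h5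
      exact h5
    · exact h' G hG p x hx hgt
  -- the group
  let Γ : Set (Matrix n n ℂ) := {g | g ∈ SAut E ∧ ∀ G ∈ SAut E, ∀ x : Fin 4 → n → ℂ,
    tau t (fun j => (G * g) *ᵥ x j) = tau t (fun j => G *ᵥ x j)}
  have hex : ∀ x : n → ℂ, ∑ p ∈ Finset.range (w + 1), π p *ᵥ x = x := by
    intro x
    rw [← sum_mulVec, hπ.sum, one_mulVec]
  -- an element of the torus
  obtain ⟨g0, hg0⟩ : ∃ g0, g0 = ((2 : ℂ) ^ w)⁻¹ • Tc w π 4 := ⟨_, rfl⟩
  have h2w : ((2 : ℂ) ^ w) ≠ 0 := pow_ne_zero _ two_ne_zero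
  have hg0x : ∀ x : n → ℂ, g0 *ᵥ x =
      ∑ p ∈ Finset.range (w + 1), (((2 : ℂ) ^ w)⁻¹ * 4 ^ p) • (π p *ᵥ x) := by
    intro x
    rw [hg0, smul_mulVec]
    unfold Tc
    rw [sum_mulVec, Finset.smul_sum]
    apply Finset.sum_congr rfl
    intro p _
    rw [smul_mulVec, smul_smul]
  have hg0A : g0 ∈ Aut E := by
    change g0ᵀ * E.map (algebraMap ℚ ℂ) * g0 = E.map (algebraMap ℚ ℂ)
    rw [hg0, transpose_smul, smul_mul_assoc, smul_mul_smul_comm, hπ.T_sim, smul_smul]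
    have e : ((2 : ℂ) ^ w)⁻¹ * ((2 : ℂ) ^ w)⁻¹ * 4 ^ w = 1 := by
      have e1 : (4 : ℂ) ^ w = 2 ^ w * 2 ^ w := by rw [← mul_pow]; norm_num
      rw [e1]
      field_simp
    rw [e, one_smul]
  have hg0d : g0.det = 1 := by
    have e1 : Tc w π 4 = Tc w π 2 * Tc w π 2 := by
      rw [hπ.Tc_mul]
      norm_num
    have e2 := congrArg det (hπ.T_sim 2)
    rw [det_mul, det_mul, det_transpose, det_smul] at e2
    have e3 : (Tc w π 2).det * (Tc w π 2).det = ((2 : ℂ) ^ w) ^ Fintype.card n := by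
      apply mul_right_cancel₀ hEu.ne_zero
      rw [← e2]
      ring
    rw [hg0, det_smul, e1, det_mul, e3, inv_pow, inv_mul_cancel₀ (pow_ne_zero _ h2w)]
  have hg0Γ : g0 ∈ Γ := by
    refine ⟨⟨hg0A, hg0d⟩, ?_⟩
    intro G hG x
    have e1 : (fun j => (G * g0) *ᵥ x j) = fun j => ∑ p ∈ Finset.range (w + 1),
        (((2 : ℂ) ^ w)⁻¹ * 4 ^ p) • (G *ᵥ (π p *ᵥ x j)) := by
      funext j
      rw [← mulVec_mulVec, hg0x, mulVec_sum]
      exact Finset.sum_congr rfl fun p _ => mulVec_smul _ _ _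
    have e2 : (fun j => G *ᵥ x j) = fun j => ∑ p ∈ Finset.range (w + 1), G *ᵥ (π p *ᵥ x j) := by
      funext j
      rw [← mulVec_sum, hex]
    rw [e1, e2, tau_sum, tau_sum]
    apply Finset.sum_congr rfl
    intro p hp
    rw [Fintype.mem_piFinset] at hp
    rw [tau_smul t (fun j => ((2 : ℂ) ^ w)⁻¹ * 4 ^ p j) (fun j => G *ᵥ (π (p j) *ᵥ x j))]
    by_cases hs : ∑ j, p j = 2 * w
    · have e3 : ∏ j : Fin 4, (((2 : ℂ) ^ w)⁻¹ * 4 ^ p j) = 1 := by
        rw [Finset.prod_mul_distrib, Finset.prod_const, Finset.card_univ, Fintype.card_fin,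
          Finset.prod_pow_eq_pow_sum, hs]
        have e4 : (4 : ℂ) ^ (2 * w) = (2 ^ w) ^ 4 := by
          rw [← pow_mul, show (4 : ℂ) = 2 ^ 2 by norm_num, ← pow_mul]
          congr 1
          ring
        rw [e4, inv_pow, inv_mul_cancel₀ (pow_ne_zero _ h2w)]
      rw [e3, one_mul]
    · rw [H1 G hG p (fun j => π (p j) *ᵥ x j)
        (fun j => Nat.lt_succ_iff.1 (Finset.mem_range.1 (hp j))) (fun j => hp1 _ _) hs, mul_zero]
  have hg0S : ¬ Scal g0 := by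
    rintro ⟨c, hc⟩
    obtain ⟨p, hp2w, hpV⟩ := hlev
    have hp : p ≤ w := by
      by_contra hcon
      exact hpV (hV.top p (by omega))
    obtain ⟨x, hx, hx0⟩ := Submodule.exists_mem_ne_zero_of_ne_bot hpV
    have key : ∀ q ≤ w, ∀ y ∈ V q, y ≠ 0 → ((2 : ℂ) ^ w)⁻¹ * 4 ^ q = c := by
      intro q hq y hy hy0
      have h3 := hg0x y
      rw [hc, smul_mulVec, one_mulVec, Finset.sum_eq_single q] at h3
      · rw [hp2 q y hy] at h3
        by_contra hne
        apply hy0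
        have h4 : (((2 : ℂ) ^ w)⁻¹ * 4 ^ q - c) • y = 0 := by rw [sub_smul, ← h3, sub_self]
        exact (smul_eq_zero.1 h4).resolve_left (sub_ne_zero.2 hne)
      · intro b _ hb
        rw [hp3 b q hb y hy, smul_zero]
      · intro hq'
        exact absurd (Finset.mem_range.2 (by omega)) hq'
    have h3 := key p hp x hx hx0
    have h4 := key (w - p) (Nat.sub_le _ _) _ (hV.conj p hp _ hx) (star_ne_zero.2 hx0)
    have h5 : (4 : ℂ) ^ p = 4 ^ (w - p) := by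
      have h6 : ((2 : ℂ) ^ w)⁻¹ * 4 ^ p = ((2 : ℂ) ^ w)⁻¹ * 4 ^ (w - p) := by rw [h3, h4]
      exact mul_left_cancel₀ (inv_ne_zero h2w) h6
    have h6 : (4 : ℕ) ^ p = 4 ^ (w - p) := by exact_mod_cast h5
    have h7 := Nat.pow_right_injective (le_refl 2 |>.trans (by norm_num : 2 ≤ 4)) h6
    omega
  have hΓA : Γ ⊆ SAut E := fun g hg => hg.1
  have hΓ1 : (1 : Matrix n n ℂ) ∈ Γ := ⟨one_saut E, fun G _ x => by rw [mul_one]⟩
  have hΓm : ∀ a ∈ Γ, ∀ b ∈ Γ, a * b ∈ Γ := by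
    intro a ha b hb
    refine ⟨saut_mul ha.1 hb.1, fun G hG x => ?_⟩
    rw [← mul_assoc, hb.2 _ (saut_mul hG ha.1), ha.2 G hG]
  have hΓi : ∀ a ∈ Γ, a⁻¹ ∈ Γ := by
    intro a ha
    refine ⟨saut_inv hEu ha.1, fun G hG x => ?_⟩
    have h3 := ha.2 (G * a⁻¹) (saut_mul hG (saut_inv hEu ha.1)) x
    rw [mul_assoc, nonsing_inv_mul a (aut_det hEu ha.1.1), mul_one] at h3
    exact h3.symm
  have hΓn : ∀ m ∈ SAut E, ∀ a ∈ Γ, m * a * m⁻¹ ∈ Γ := by
    intro m hm a ha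
    refine ⟨saut_mul (saut_mul hm ha.1) (saut_inv hEu hm), fun G hG x => ?_⟩
    have h3 := ha.2 (G * m) (saut_mul hG hm) (fun j => m⁻¹ *ᵥ x j)
    simp only [mulVec_mulVec] at h3
    have e1 : ∀ j : Fin 4, (G * (m * a * m⁻¹)) *ᵥ x j = (G * m * a * m⁻¹) *ᵥ x j := by
      intro j
      simp only [mul_assoc]
    have e2 : ∀ j : Fin 4, (G * m * m⁻¹) *ᵥ x j = G *ᵥ x j := by
      intro j
      rw [mul_assoc, mul_nonsing_inv m (aut_det hEu hm.1), mul_one]
    simp only [e1]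
    simp only [e2] at h3
    exact h3
  have hfin := hN n E hEs (isUnit_iff_ne_zero.2 hEd) h5 (SAut E) Γ (fun f hf g hg => hf g hg)
    (fun g hg => hg.1) hΓA hΓ1 hΓm hΓi hΓn ⟨g0, hg0Γ, hg0S⟩
  intro G hG x
  have h3 := hfin (tp t x - MvPolynomial.C (tau t x)) (by
    intro g hg
    rw [map_sub, pev_tp, pev_C, sub_eq_zero]
    have h4 := hg.2 1 (one_saut E) x
    simp only [one_mul, one_mulVec] at h4
    exact h4) G hG
  rw [map_sub, pev_tp, pev_C, sub_eq_zero] at h3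
  exact h3

end

end Pool.Agent.MT100GO.H65
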